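import Pool.Agent.H.MP_6532c6_co.Grid

set_option autoImplicit false

namespace Pool.Agent.Results.MP_6532c6_co.Separate

open Finset

def IsAssign {V : Type} (p : Multiset ℕ) (L : V → Finset ℕ) : Prop :=
  ∃ cls : ℕ → p.ToType, ∀ v (i : p.ToType), {x | x ∈ L v ∧ cls x = i}.ncard = i.1

def Choosable {V : Type} (G : SimpleGraph V) (p : Multiset ℕ) : Prop :=
  ∀ L : V → Finset ℕ, IsAssign p L →
    ∃ f : V → ℕ, (∀ v, f v ∈ L v) ∧ ∀ u v, G.Adj u v → f u ≠ f v

def Step (μ ν : Multiset ℕ) : Prop :=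
  ∃ a rest π, μ = a ::ₘ rest ∧ ν = π + rest ∧ π.sum = a ∧ ∀ x ∈ π, 0 < x

def Le (p q : Multiset ℕ) : Prop :=
  ∃ r, Multiset.Rel (· ≤ ·) p r ∧ Relation.ReflTransGen Step r q

open Classical in
lemma nc {α : Type} (S : Finset ℕ) (cls : ℕ → α) (i : α) :
    {x | x ∈ S ∧ cls x = i}.ncard = (S.filter fun x => cls x = i).card := by
  rw [← Set.ncard_coe_finset, coe_filter]

lemma single (A : Set (Multiset ℕ)) (hA : A.Finite) (β : Multiset ℕ) (h0 : ∀ p ∈ A, p ≠ 0)
    (h1 : β ≠ 0 ∧ ∀ a ∈ β, 0 < a) (h2 : ∀ p ∈ A, ¬ Le p β) :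
    ∃ (V : Type) (_ : Finite V) (G : SimpleGraph V),
      (∀ p ∈ A, Choosable G p) ∧ ¬ Choosable G β := by
  classical
  open Pool.Agent.H.MP_6532c6_co in
  have hAf := hA.fintype
  have : ∀ t : A, Nonempty t.1.ToType := fun t => by
    rw [← Fintype.card_pos_iff, Multiset.card_coe]
    exact Multiset.card_pos.2 (h0 _ t.2)
  have : Nonempty β.ToType := by
    rw [← Fintype.card_pos_iff, Multiset.card_coe]
    exact Multiset.card_pos.2 h1.1
  obtain ⟨V, _, G, cell, L, rank, hG, -, hf⟩ := build (T := A) (I := fun t => t.1.ToType)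
    (fun t i => i.1) (κ := β.ToType) (fun s => s.1) (2 * β.sum)
    (fun s => Nat.mul_le_mul_left 2 (Multiset.single_le_sum (by simp) _ Multiset.coe_mem))
    (fun t g => by
      by_contra hc
      push Not at hc
      have := group_le (fun i : t.1.ToType => i.1) (fun s : β.ToType => s.1)
        (fun s => h1.2 _ Multiset.coe_mem) g (fun i => by convert hc i)
      rw [Multiset.map_univ_coe, Multiset.map_univ_coe] at this
      exact h2 _ t.2 this)
    (Fintype.card ((∀ t : A, t.1.ToType) × β.ToType × Fin (2 * β.sum)) + 1)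
  refine ⟨V, inferInstance, G, fun p hp L' ⟨cls, h⟩ => ?_, fun h => ?_⟩
  · exact greedy _ _ _ hG ⟨p, hp⟩ L' cls (fun v i => by rw [← nc]; exact h v i)
  · obtain ⟨e, he⟩ := Countable.exists_injective_nat (β.ToType × Fin (2 * β.sum))
    have : Nonempty (β.ToType × Fin (2 * β.sum)) := by
      obtain ⟨s⟩ := ‹Nonempty β.ToType›
      have h3 := h1.2 _ (Multiset.coe_mem (x := s))
      have h4 : s.1 ≤ β.sum := Multiset.single_le_sum (by simp) _ Multiset.coe_mem
      exact ⟨s, ⟨0, by omega⟩⟩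
    have hi := Function.leftInverse_invFun he
    obtain ⟨f, h3, h4⟩ := h (fun v => (L v).image e) ⟨fun x => (Function.invFun e x).1, fun v i => by
      rw [nc, filter_image, card_image_of_injective _ he, ← hG.h3 v i]
      simp only [hi _]⟩
    choose g hg1 hg2 using fun v => mem_image.1 (h3 v)
    have h5 := hf g hg1 (fun u v huv e' => h4 u v huv (by rw [← hg2, ← hg2, e']))
    exact absurd (h5.trans (card_le_univ _)) (by omega)

theorem result (A B : Set (Multiset ℕ)) (hpart : ∀ p ∈ A ∪ B, p ≠ 0 ∧ ∀ a ∈ p, 0 < a)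
    (hdisj : Disjoint A B) (hinc : ∀ p ∈ A ∪ B, ∀ q ∈ A ∪ B, p ≠ q → ¬ Le p q) :
    ∃ (V : Type) (_ : Finite V) (G : SimpleGraph V),
      (∀ p ∈ A, Choosable G p) ∧ ∀ p ∈ B, ¬ Choosable G p := by
  have hfin := Pool.Agent.H.MP_6532c6_co.anti_finite (A ∪ B) hpart hinc
  have h := fun β : B => single A (hfin.subset Set.subset_union_left) β
    (fun p hp => (hpart p (Or.inl hp)).1) (hpart β (Or.inr β.2))
    (fun p hp => hinc p (Or.inl hp) β (Or.inr β.2)
      (fun e => Set.disjoint_left.1 hdisj hp (e ▸ β.2)))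
  choose V hV G h1 h2 using h
  have : Finite B := hfin.subset Set.subset_union_right
  let G' : SimpleGraph (Σ β, V β) :=
    { Adj := fun x y => ∃ β u v, x = ⟨β, u⟩ ∧ y = ⟨β, v⟩ ∧ (G β).Adj u v
      symm := ⟨fun x y ⟨β, u, v, h3, h4, h5⟩ => ⟨β, v, u, h4, h3, h5.symm⟩⟩
      loopless := ⟨fun x ⟨β, u, v, h3, h4, h5⟩ =>
        h5.ne (sigma_mk_injective (h3.symm.trans h4))⟩ }
  refine ⟨Σ β, V β, inferInstance, G', fun p hp L ⟨cls, hc⟩ => ?_, fun p hp h => ?_⟩
  · choose f hf1 hf2 using fun β => h1 β p hp (fun v => L ⟨β, v⟩) ⟨cls, fun v i => hc _ i⟩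
    refine ⟨fun x => f x.1 x.2, fun x => hf1 _ _, ?_⟩
    rintro _ _ ⟨β, u, v, rfl, rfl, h3⟩
    exact hf2 β u v h3
  · apply h2 ⟨p, hp⟩
    rintro L ⟨cls, hc⟩
    classical
    by_cases hne : Nonempty (V ⟨p, hp⟩)
    · obtain ⟨v0⟩ := hne
      obtain ⟨f, h3, h4⟩ := h (fun x => if e : x.1 = ⟨p, hp⟩ then L (e ▸ x.2) else L v0)
        ⟨cls, fun x i => by beta_reduce; split_ifs <;> exact hc _ i⟩
      refine ⟨fun v => f ⟨_, v⟩, fun v => ?_, fun u v huv => h4 _ _ ⟨_, u, v, rfl, rfl, huv⟩⟩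
      simpa using h3 ⟨_, v⟩
    · exact ⟨fun _ => 0, fun v => absurd ⟨v⟩ hne, fun v => absurd ⟨v⟩ hne⟩

end Pool.Agent.Results.MP_6532c6_co.Separate
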